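import Pool.Agent.Run7.h441.JM.Stm

/-!
# MP_e26d5c_nt, piece CMP (compactness of the Galois group)
-/

set_option autoImplicit false

namespace Run7.h136.JM

open Run7.h441.JM

theorem isAlgebraic_omega' : Algebra.IsAlgebraic ℚ Ω := AlgebraicClosure.isAlgebraic ℚ

attribute [local instance] isAlgebraic_omega'

theorem isAlgClosure_omega' : IsAlgClosure ℚ Ω := ⟨inferInstance, isAlgebraic_omega'⟩

attribute [local instance] isAlgClosure_omega'

theorem normal_omega' : Normal ℚ Ω := IsAlgClosure.normal ℚ Ω

attribute [local instance] normal_omega'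

/-- For fixed `y z`, the set of `g` with `g y = z` is closed in the Krull topology. -/
lemma isClosed_eval (y z : Ω) : IsClosed {g : Γ | g y = z} := by
  -- the stabiliser of `y` is open
  have hopen : IsOpen ((IntermediateField.fixingSubgroup (IntermediateField.adjoin ℚ {y}) :
      Subgroup Γ) : Set Γ) := by
    have : FiniteDimensional ℚ (IntermediateField.adjoin ℚ {y}) :=
      IntermediateField.adjoin.finiteDimensional (Algebra.IsIntegral.isIntegral y)
    exact IntermediateField.fixingSubgroup_isOpen _
  have hclosed : IsClosed ((IntermediateField.fixingSubgroup (IntermediateField.adjoin ℚ {y}) :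
      Subgroup Γ) : Set Γ) := Subgroup.isClosed_of_isOpen _ hopen
  by_cases h : ∃ g0 : Γ, g0 y = z
  · obtain ⟨g0, hg0⟩ := h
    have heq : {g : Γ | g y = z} = (fun g : Γ => g0⁻¹ * g) ⁻¹'
        ((IntermediateField.fixingSubgroup (IntermediateField.adjoin ℚ {y}) :
          Subgroup Γ) : Set Γ) := by
      ext g
      simp only [Set.mem_setOf_eq, Set.mem_preimage, SetLike.mem_coe]
      rw [IntermediateField.mem_fixingSubgroup_iff]
      constructor
      · intro hg x hx
        have hle : IntermediateField.adjoin ℚ {y} ≤
            IntermediateField.fixedField (Subgroup.zpowers (g0⁻¹ * g)) := by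
          rw [IntermediateField.adjoin_le_iff]
          intro w hw
          have hw' : w = y := hw
          subst hw'
          intro ⟨m, hm⟩
          rw [Subgroup.mem_zpowers_iff] at hm
          obtain ⟨j, rfl⟩ := hm
          have h1 : (g0⁻¹ * g) w = w := by
            rw [AlgEquiv.mul_apply, hg, ← hg0]
            exact AlgEquiv.symm_apply_apply g0 w
          have h2 : (g0⁻¹ * g) ∈ MulAction.stabilizer Γ w := h1
          exact (MulAction.stabilizer Γ w).zpow_mem h2 j
        have := hle hx
        exact this ⟨g0⁻¹ * g, Subgroup.mem_zpowers _⟩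
      · intro hg
        have h1 := hg y (IntermediateField.mem_adjoin_simple_self ℚ y)
        have h2 : g0 ((g0⁻¹ * g) y) = g0 y := by rw [h1]
        rw [← AlgEquiv.mul_apply, mul_inv_cancel_left] at h2
        rw [h2, hg0]
    rw [heq]
    exact hclosed.preimage (continuous_const.mul continuous_id)
  · have heq : {g : Γ | g y = z} = ∅ := by
      ext g
      simp only [Set.mem_setOf_eq, Set.mem_empty_iff_false, iff_false]
      exact fun hg => h ⟨g, hg⟩
    rw [heq]
    exact isClosed_empty

theorem t_CMP : S_CMP := by
  intro B σ hB hex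
  have : CompactSpace Γ := inferInstance
  have key : (⋂ n : ℕ, {g : Γ | ∀ y ∈ B n, g y = σ y}).Nonempty := by
    have hcl : ∀ n, IsClosed {g : Γ | ∀ y ∈ B n, g y = σ y} := by
      intro n
      have : {g : Γ | ∀ y ∈ B n, g y = σ y} = ⋂ y ∈ B n, {g : Γ | g y = σ y} := by
        ext g; simp
      rw [this]
      exact isClosed_biInter fun y _ => isClosed_eval y (σ y)
    apply IsCompact.nonempty_iInter_of_directed_nonempty_isCompact_isClosed
    · apply directed_of_isDirected_le
      intro i j hij g hg y hy
      exact hg y (hB hij hy)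
    · exact hex
    · intro n
      exact (hcl n).isCompact
    · exact hcl
  obtain ⟨g, hg⟩ := key
  refine ⟨g, fun n y hy => ?_⟩
  have := Set.mem_iInter.mp hg n
  exact this y hy

end Run7.h136.JM
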