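import Pool.Agent.Run7.h441.JM.Stm

/-!
# MP_e26d5c_nt, piece CNJ (complex conjugation)
-/

set_option autoImplicit false

namespace Run7.h136.JM


open Run7.h441.JM

theorem isAlgebraic_omega : Algebra.IsAlgebraic ℚ Ω := AlgebraicClosure.isAlgebraic ℚ

attribute [local instance] isAlgebraic_omega

theorem isAlgClosure_omega : IsAlgClosure ℚ Ω := ⟨inferInstance, isAlgebraic_omega⟩

attribute [local instance] isAlgClosure_omega

theorem normal_omega : Normal ℚ Ω := IsAlgClosure.normal ℚ Ω

attribute [local instance] normal_omega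

/-- Every element of the preimage tree of `1` is real under any embedding into `ℂ`. -/
lemma lev_real (k : ℤ) (hk : k ≠ 0) (ι : Ω →+* ℂ) :
    ∀ (n : ℕ) (y : Ω), Lev k n y → (starRingEnd ℂ) (ι y) = ι y := by
  intro n
  induction n with
  | zero =>
    intro y hy
    have hy1 : y = 1 := hy
    rw [hy1, map_one, map_one]
  | succ n ih =>
    intro y hy
    obtain ⟨u, hu, huy⟩ := hy
    have hur := ih u hu
    have h1 : (k : ℂ) * ((ι y) ^ 2 - 1) = ι u * ι y := by
      have := congrArg ι huy
      simpa using this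
    obtain ⟨r, hr⟩ := Complex.conj_eq_iff_real.mp hur
    rw [hr] at h1
    -- real and imaginary parts
    set z : ℂ := ι y with hz
    rw [Complex.conj_eq_iff_im]
    have hre := congrArg Complex.re h1
    have him := congrArg Complex.im h1
    have hkr : (k : ℝ) ≠ 0 := by exact_mod_cast hk
    simp [pow_two, Complex.mul_re, Complex.mul_im] at hre him
    by_contra hne
    -- him : k * (z.re * z.im + z.im * z.re) = r * z.im
    have h2 : 2 * (k : ℝ) * z.re = r := by
      apply mul_right_cancel₀ hne
      linarith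
    have h3 : (k : ℝ) * (z.re * z.re + z.im * z.im + 1) = 0 := by
      have : r * z.re = 2 * (k : ℝ) * z.re * z.re := by rw [← h2]
      linarith
    have h4 : z.re * z.re + z.im * z.im + 1 = 0 := by
      rcases mul_eq_zero.mp h3 with h | h
      · exact absurd h hkr
      · exact h
    nlinarith [mul_self_nonneg z.re, mul_self_nonneg z.im]

theorem t_CNJ : S_CNJ := by
  intro k hk I hI
  let ι : Ω →ₐ[ℚ] ℂ := IsAlgClosed.lift
  let : Algebra Ω ℂ := ι.toRingHom.toAlgebra
  have : IsScalarTower ℚ Ω ℂ := IsScalarTower.of_algebraMap_eq' (by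
    ext x
    simp)
  let cj : ℂ ≃ₐ[ℚ] ℂ := Complex.conjAe.restrictScalars ℚ
  let c : Γ := cj.restrictNormal Ω
  have hc : ∀ x : Ω, ι (c x) = (starRingEnd ℂ) (ι x) := by
    intro x
    exact cj.restrictNormal_commutes Ω x
  have hinj : Function.Injective ι := ι.toRingHom.injective
  refine ⟨c, ?_, ?_⟩
  · apply hinj
    rw [hc, map_neg]
    have h1 : (ι I) ^ 2 = -1 := by
      rw [← map_pow, hI, map_neg, map_one]
    have h2 : (ι I - Complex.I) * (ι I + Complex.I) = 0 := by
      have : (ι I - Complex.I) * (ι I + Complex.I) = (ι I) ^ 2 - Complex.I ^ 2 := by ring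
      rw [this, h1, Complex.I_sq]; ring
    rcases mul_eq_zero.mp h2 with h | h
    · have h3 : ι I = Complex.I := sub_eq_zero.mp h
      rw [h3, Complex.conj_I]
    · have h3 : ι I = - Complex.I := eq_neg_of_add_eq_zero_left h
      rw [h3, map_neg, Complex.conj_I]
  · intro n y hy
    apply hinj
    rw [hc]
    exact lev_real k hk ι.toRingHom n y hy

end Run7.h136.JM
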